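import Pool.Agent.Q267.CDE.Luc41
import Pool.Agent.Q267.CDE.UU

/-!
# MP_d57286_nt

Lucas-weighted central binomial sums with denominator `64^k`: Q1 and Q2.
-/

namespace Pool.Agent.Results.MP_d57286_nt.Full

open Finset

/-- `r ≡ s (mod p^2)`: `p^2` divides the numerator of `r - s` written in lowest terms. -/
def Cong (p : ℕ) (r s : ℚ) : Prop := (p : ℤ) ^ 2 ∣ (r - s).num

/-- The Lucas sequence `u_k(4,1)`. -/
def lucas : ℕ → ℤ
  | 0 => 0
  | 1 => 1
  | (n + 2) => 4 * lucas (n + 1) - lucas n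

open Pool.Agent.Q267 Pool.Agent.Q267.CDE Pool.Agent.Q267.Seven Q278.PI

theorem lucas_eq (k : ℕ) : lucas k = luc k := by
  have key : ∀ n, lucas n = luc n ∧ lucas (n + 1) = luc (n + 1) := by
    intro n
    induction n with
    | zero => exact ⟨rfl, rfl⟩
    | succ n ih =>
      refine ⟨ih.2, ?_⟩
      rw [lucas, luc, ih.1, ih.2]
  exact (key k).1

theorem cong_of {p : ℕ} [hp : Fact p.Prime] {r s : ℚ} (a b : O p) (ha : (a : ℚ) = r)
    (hb : (b : ℚ) = s) (h : res2 p a = res2 p b) : Cong p r s := by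
  subst ha hb
  exact cong_of_res2 p a b h

section

variable (p : ℕ) [hp : Fact p.Prime] {m : ℕ} (hpm : p = 2 * m + 1) (h3 : 3 < p)

include hpm h3

theorem h64 : ¬ (p : ℤ) ∣ 64 := by
  have hn := two_pow_not_dvd p hpm h3 6
  have : (((2 ^ 6 : ℕ)) : ℤ) = 64 := by norm_num
  rwa [this] at hn

theorem h4 : ¬ (p : ℤ) ∣ 4 := by
  have hn := two_pow_not_dvd p hpm h3 2
  have : (((2 ^ 2 : ℕ)) : ℤ) = 4 := by norm_num
  rwa [this] at hn

/-- the sum with weights `f` in `ℤ_(p)` and its image in `ℤ/p²` -/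
theorem sum_res (f : ℕ → ℤ) :
    ∃ a : O p, (a : ℚ) = ∑ k ∈ range p, (f k : ℚ) / 64 ^ k * ((2 * k).choose k : ℚ) ^ 2 ∧
      res2 p a = ∑ k ∈ range (m + 1), (f k : R p) * ((dl m k : R p) * (res2 p (invI p 4)) ^ k) := by
  have hcd := h64 p hpm h3
  have hJ4 := res2_invI p 4 (h4 p hpm h3)
  refine ⟨∑ k ∈ range p, (f k : O p) * (k.centralBinom : O p) ^ 2 * (invI p 64) ^ k, ?_, ?_⟩
  · push_cast
    refine sum_congr rfl fun k _ => ?_
    rw [invI_coe p 64 hcd, Nat.centralBinom, inv_pow, div_eq_mul_inv]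
    push_cast
    ring
  · have hJ := res2_invI p 64 hcd
    simp only [map_sum, map_mul, map_pow, map_natCast, map_intCast]
    set J := res2 p (invI p 64) with hJdef
    set J4 := res2 p (invI p 4) with hJ4def
    push_cast at hJ hJ4
    have hJJ : J = J4 ^ 2 * J4 := by
      have hu : IsUnit (64 : R p) := IsUnit.of_mul_eq_one _ hJ
      apply hu.mul_left_cancel
      linear_combination hJ - (16 * J4 ^ 2 + 4 * J4 + 1) * hJ4
    have hJ16 : 16 * J4 ^ 2 = 1 := by linear_combination (4 * J4 + 1) * hJ4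
    rw [← sum_range_add_sum_Ico _ (show m + 1 ≤ p by omega)]
    have h5 : ∑ k ∈ Ico (m + 1) p, (f k : R p) * (k.centralBinom : R p) ^ 2 * J ^ k = 0 := by
      refine sum_eq_zero fun k hk => ?_
      rw [mem_Ico] at hk
      rw [u2_zero p hpm h3 k (by omega) hk.2]
      ring
    rw [h5, add_zero]
    refine sum_congr rfl fun k hk => ?_
    have hk' : k ≤ m := by simpa [Nat.lt_succ_iff] using hk
    have h6 := u2 p hpm h3 (J4 ^ 2) hJ16 k hk'
    rw [hJJ, mul_pow]
    linear_combination ((f k : R p) * J4 ^ k) * h6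

end

section

variable (p : ℕ) [hp : Fact p.Prime] (h12 : p % 12 = 7) (r : ℕ) (hr : p = 6 * r + 1)

include h12 hr

theorem exact_res :
    2 * (-1 : R p) ^ ((r - 1) / 2) * ∑ k ∈ range (3 * r + 1), (lucas k : R p) *
      ((dl (3 * r) k : R p) * (res2 p (invI p 4)) ^ k) =
      -∑ k ∈ range (3 * r + 1), (dl (3 * r) k : R p) * ((-1) ^ k * (chi3 k : R p)) ∧
    2 * (-1 : R p) ^ ((r - 1) / 2) * ∑ k ∈ range (3 * r + 1), ((lucas k * (k : ℤ) : ℤ) : R p) *
      ((dl (3 * r) k : R p) * (res2 p (invI p 4)) ^ k) =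
      -∑ k ∈ range (3 * r + 1), (2 * (k : R p) - ((3 * r : ℕ) : R p)) * ((dl (3 * r) k : R p) *
        ((-1) ^ k * (tau3 k : R p))) := by
  have h3 : 3 < p := by omega
  have hodd : Odd r := Nat.odd_iff.2 (by omega)
  obtain ⟨x1, x2⟩ := exact_both r hodd
  set m := 3 * r with hm
  have hpm : p = 2 * m + 1 := by omega
  have hmo : Odd m := Nat.odd_iff.2 (by omega)
  have h4d := h4 p hpm h3
  have hJ4 := res2_invI p 4 h4d
  push_cast at hJ4
  have h2u : IsUnit (2 : R p) := by
    have := isUnit_nat p 2 (by omega) (by omega)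
    exact_mod_cast this
  have c4 : ((invI p 4 : O p) : ℚ) = 1 / 4 := by
    rw [invI_coe p 4 h4d]
    norm_num
  have c2 : ((2 : O p) : ℚ) = 2 := rfl
  have cu : ∀ k : ℕ, S16.u k = (k.centralBinom : ℚ) * (1 / 4) ^ k := by
    intro k
    unfold S16.u
    rw [div_eq_mul_one_div, one_div_pow]
  -- transfer
  have y1 : 2 * (-1 : O p) ^ ((r - 1) / 2) * ∑ k ∈ range (m + 1), ((luc k : ℤ) : O p) *
      (((dl m k : ℤ) : O p) * (invI p 4) ^ k) = ∑ k ∈ range (m + 1),
      (((k.centralBinom : O p) * (invI p 4) ^ k) * (((m - k).centralBinom : O p) *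
        (invI p 4) ^ (m - k))) * ((-1) ^ k * ((chi3 k : ℤ) : O p)) := by
    apply Subtype.ext
    push_cast
    rw [c4, c2]
    simp only [cu] at x1
    exact x1
  have y2 : 2 * (-1 : O p) ^ ((r - 1) / 2) * ∑ k ∈ range (m + 1), (k : O p) * (((luc k : ℤ) : O p) *
      (((dl m k : ℤ) : O p) * (invI p 4) ^ k)) = ∑ k ∈ range (m + 1),
      (2 * (k : O p) - (m : O p)) * ((((k.centralBinom : O p) * (invI p 4) ^ k) *
      (((m - k).centralBinom : O p) * (invI p 4) ^ (m - k))) * ((-1) ^ k * ((tau3 k : ℤ) : O p))) := by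
    apply Subtype.ext
    push_cast
    rw [c4, c2]
    simp only [cu] at x2
    exact x2
  have z1 := congrArg (res2 p) y1
  have z2 := congrArg (res2 p) y2
  simp only [map_sum, map_mul, map_pow, map_neg, map_one, map_sub, map_natCast, map_intCast,
    map_ofNat] at z1 z2
  set J := res2 p (invI p 4) with hJ
  have hmsign : ((-1 : R p)) ^ m = -1 := hmo.neg_one_pow
  have huu := uu p hpm h3 J hJ4
  have ksign : ∀ k, k ≤ m → ((-1 : R p)) ^ (m - k) = -(-1) ^ k := by
    intro k hk
    have h4 : ((-1 : R p)) ^ (m - k) * (-1) ^ k = -1 := by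
      rw [← pow_add, Nat.sub_add_cancel hk, hmsign]
    have h5 : ((-1 : R p)) ^ k * (-1) ^ k = 1 := by rw [← mul_pow]; norm_num
    linear_combination ((-1) ^ k) * h4 - ((-1 : R p)) ^ (m - k) * h5
  constructor
  · have e1 : ∑ k ∈ range (m + 1), (lucas k : R p) * ((dl m k : R p) * J ^ k) =
        ∑ k ∈ range (m + 1), (luc k : R p) * ((dl m k : R p) * J ^ k) :=
      sum_congr rfl fun k _ => by rw [lucas_eq]
    rw [e1, z1]
    apply h2u.mul_left_cancel
    have e2 : 2 * ∑ k ∈ range (m + 1), (k.centralBinom : R p) * J ^ k *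
        (((m - k).centralBinom : R p) * J ^ (m - k)) * ((-1) ^ k * (chi3 k : R p)) =
        -∑ k ∈ range (m + 1), (dl m k : R p) * ((-1) ^ k * (chi3 k : R p)) +
        -∑ k ∈ range (m + 1), (dl m (m - k) : R p) * ((-1) ^ k * (chi3 k : R p)) := by
      rw [mul_sum, ← neg_add, ← sum_add_distrib, ← sum_neg_distrib]
      refine sum_congr rfl fun k hk => ?_
      have hk' : k ≤ m := by simpa [Nat.lt_succ_iff] using hk
      have := huu k hk'
      rw [hmsign] at this
      linear_combination ((-1) ^ k * (chi3 k : R p)) * this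
    have e3 : ∑ k ∈ range (m + 1), (dl m (m - k) : R p) * ((-1) ^ k * (chi3 k : R p)) =
        ∑ k ∈ range (m + 1), (dl m k : R p) * ((-1) ^ k * (chi3 k : R p)) := by
      rw [← sum_range_reflect]
      refine sum_congr rfl fun k hk => ?_
      have hk' : k ≤ m := by simpa [Nat.lt_succ_iff] using hk
      have h5 : chi3 (m - k) = -chi3 k := by
        unfold chi3
        split_ifs <;> omega
      rw [show m + 1 - 1 - k = m - k by omega, Nat.sub_sub_self hk', ksign k hk', h5]
      push_cast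
      ring
    rw [e2, e3]
    ring
  · have e1 : ∑ k ∈ range (m + 1), ((lucas k * (k : ℤ) : ℤ) : R p) * ((dl m k : R p) * J ^ k) =
        ∑ k ∈ range (m + 1), (k : R p) * ((luc k : R p) * ((dl m k : R p) * J ^ k)) :=
      sum_congr rfl fun k _ => by rw [lucas_eq]; push_cast; ring
    rw [e1, z2]
    apply h2u.mul_left_cancel
    have e2 : 2 * ∑ k ∈ range (m + 1), (2 * (k : R p) - (m : R p)) * ((k.centralBinom : R p) *
        J ^ k * (((m - k).centralBinom : R p) * J ^ (m - k)) * ((-1) ^ k * (tau3 k : R p))) =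
        -∑ k ∈ range (m + 1), (2 * (k : R p) - (m : R p)) * ((dl m k : R p) *
          ((-1) ^ k * (tau3 k : R p))) +
        -∑ k ∈ range (m + 1), (2 * (k : R p) - (m : R p)) * ((dl m (m - k) : R p) *
          ((-1) ^ k * (tau3 k : R p))) := by
      rw [mul_sum, ← neg_add, ← sum_add_distrib, ← sum_neg_distrib]
      refine sum_congr rfl fun k hk => ?_
      have hk' : k ≤ m := by simpa [Nat.lt_succ_iff] using hk
      have := huu k hk'
      rw [hmsign] at this
      linear_combination ((2 * (k : R p) - (m : R p)) * ((-1) ^ k * (tau3 k : R p))) * this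
    have e3 : ∑ k ∈ range (m + 1), (2 * (k : R p) - (m : R p)) * ((dl m (m - k) : R p) *
        ((-1) ^ k * (tau3 k : R p))) =
        ∑ k ∈ range (m + 1), (2 * (k : R p) - (m : R p)) * ((dl m k : R p) *
        ((-1) ^ k * (tau3 k : R p))) := by
      rw [← sum_range_reflect]
      refine sum_congr rfl fun k hk => ?_
      have hk' : k ≤ m := by simpa [Nat.lt_succ_iff] using hk
      have h5 : tau3 (m - k) = tau3 k := by
        unfold tau3
        split_ifs <;> omega
      rw [show m + 1 - 1 - k = m - k by omega, Nat.sub_sub_self hk', ksign k hk', h5,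
        Nat.cast_sub hk']
      ring
    rw [e2, e3]
    ring

end

theorem both (p : ℕ) (hp' : p.Prime) (h12 : p % 12 = 7) (x y : ℤ)
    (hxy : (p : ℤ) = x ^ 2 + 3 * y ^ 2) (hy : y % 4 = 1) :
    Cong p (∑ k ∈ range p, (lucas k : ℚ) / 64 ^ k * ((2 * k).choose k : ℚ) ^ 2)
      (2 * (y : ℚ) - p / (6 * y)) ∧
    Cong p (∑ k ∈ range p, (k : ℚ) * (lucas k : ℚ) / 64 ^ k * ((2 * k).choose k : ℚ) ^ 2) y := by
  have hp := Fact.mk hp'
  obtain ⟨r, hr⟩ : ∃ r, p = 6 * r + 1 := ⟨p / 6, by omega⟩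
  have hm : p = 2 * (3 * r) + 1 := by omega
  have h3 : 3 < p := by omega
  -- `p` does not divide `y`
  have hyd : ¬ (p : ℤ) ∣ y := by
    intro h
    have hy0 : y ≠ 0 := by omega
    have h1 := Int.le_of_dvd (by positivity) ((dvd_abs _ _).2 h)
    have h2 : (p : ℤ) ^ 2 ≤ y ^ 2 := by
      rw [← sq_abs y]
      exact pow_le_pow_left₀ (by positivity) h1 2
    nlinarith [sq_nonneg x]
  have h6d : ¬ (p : ℤ) ∣ 6 := by
    intro h
    have h' : (p : ℤ) ∣ 2 * 3 := h
    rcases (Nat.prime_iff_prime_int.1 hp').dvd_or_dvd h' with h | h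
    · have := Int.le_of_dvd (by norm_num) h
      omega
    · have := Int.le_of_dvd (by norm_num) h
      omega
  have h6y : ¬ (p : ℤ) ∣ 6 * y := by
    intro h
    rcases (Nat.prime_iff_prime_int.1 hp').dvd_or_dvd h with h | h
    · exact h6d h
    · exact hyd h
  have hY := res2_invI p (6 * y) h6y
  push_cast at hY
  set Y := res2 p (invI p (6 * y)) with hYdef
  obtain ⟨w, hw, hsu, hAu, hA, hAc⟩ := A7 h12 (3 * r) hm x y hxy hy Y hY
  have hw' : (-1 - w) ^ 2 + (-1 - w) + 1 = 0 := by linear_combination hw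
  have hs2 : (2 * w + 1) ^ 2 = -3 := by linear_combination 4 * hw
  have hpp := CDE.p_sq p
  have h2u : IsUnit (2 : R p) := by
    have := isUnit_nat p 2 (by omega) (by omega)
    exact_mod_cast this
  have h3u : IsUnit (3 : R p) := by
    have := isUnit_nat p 3 (by omega) (by omega)
    exact_mod_cast this
  set δ : R p := (-1) ^ ((p - 3) / 4) with hδ
  set ε : R p := (-1) ^ ((r - 1) / 2) with hε
  have hδε : ε * δ = -1 := by
    rw [hδ, hε, ← pow_add]
    have : (r - 1) / 2 + (p - 3) / 4 = 2 * (r - 1) + 1 := by omega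
    rw [this, pow_succ, pow_mul]
    norm_num
  have hε2 : ε * ε = 1 := by rw [hε, ← mul_pow]; norm_num
  obtain ⟨x1, x2⟩ := exact_res p h12 r hr
  rw [← hε] at x1 x2
  set A := ∑ k ∈ range (3 * r + 1), (dl (3 * r) k : R p) * (-w) ^ k with hAdef
  constructor
  · obtain ⟨a, ha, hra⟩ := sum_res p hm h3 lucas
    refine cong_of a (2 * (y : O p) - (p : O p) * invI p (6 * y)) ha ?_ ?_
    · have c2 : ((2 : O p) : ℚ) = 2 := rfl
      push_cast
      rw [c2, invI_coe p _ h6y]
      push_cast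
      rw [div_eq_mul_inv]
    · rw [hra]
      simp only [map_mul, map_sub, map_natCast, map_intCast, map_ofNat]
      rw [← hYdef]
      set S := ∑ k ∈ range (3 * r + 1), (lucas k : R p) *
        ((dl (3 * r) k : R p) * (res2 p (invI p 4)) ^ k) with hS
      have e1 : (2 * w + 1) * ∑ k ∈ range (3 * r + 1), (dl (3 * r) k : R p) *
          ((-1) ^ k * (chi3 k : R p)) =
          A - ∑ k ∈ range (3 * r + 1), (dl (3 * r) k : R p) * (-(-1 - w)) ^ k := by
        rw [hAdef, mul_sum, ← sum_sub_distrib]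
        refine sum_congr rfl fun k _ => ?_
        have h5 := chi3_eq w hw k
        rw [neg_pow w k, neg_pow (-1 - w) k]
        linear_combination ((-1) ^ k * (dl (3 * r) k : R p)) * h5
      rw [hAc] at e1
      have e2 : (2 * w + 1) * (2 * ε * S) = -(2 * A) := by
        rw [x1]
        linear_combination -e1
      apply hsu.mul_left_cancel
      apply h2u.mul_left_cancel
      rw [hA] at e2
      linear_combination ε * e2 - (2 * (2 * w + 1) * S) * hε2
        - (2 * (2 * w + 1) * (2 * (y : R p) - p * Y)) * hδε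
  · obtain ⟨a, ha, hra⟩ := sum_res p hm h3 (fun k => lucas k * (k : ℤ))
    refine cong_of a (y : O p) ?_ ?_ ?_
    · rw [ha]
      refine sum_congr rfl fun k _ => ?_
      push_cast
      ring
    · push_cast
      rfl
    · rw [hra]
      simp only [map_intCast]
      set S := ∑ k ∈ range (3 * r + 1), ((lucas k * (k : ℤ) : ℤ) : R p) *
        ((dl (3 * r) k : R p) * (res2 p (invI p 4)) ^ k) with hS
      have d1 := A7_deriv h12 (3 * r) hm w hw
      have d2 := A7_deriv h12 (3 * r) hm (-1 - w) hw'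
      rw [hAc] at d2
      rw [← hAdef] at d1
      set A1 := ∑ k ∈ range (3 * r + 1), (k : R p) * ((dl (3 * r) k : R p) * (-w) ^ k) with hA1
      set A2 := ∑ k ∈ range (3 * r + 1), (k : R p) * ((dl (3 * r) k : R p) * (-(-1 - w)) ^ k)
        with hA2
      have e2 : ∑ k ∈ range (3 * r + 1), (2 * (k : R p) - ((3 * r : ℕ) : R p)) *
          ((dl (3 * r) k : R p) * ((-1) ^ k * (tau3 k : R p))) = 2 * (A1 + A2) := by
        have e3 : ∑ k ∈ range (3 * r + 1), (2 * (k : R p) - ((3 * r : ℕ) : R p)) *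
          ((dl (3 * r) k : R p) * ((-1) ^ k * (tau3 k : R p))) =
          2 * A1 + 2 * A2 - ((3 * r : ℕ) : R p) * A - ((3 * r : ℕ) : R p) *
          ∑ k ∈ range (3 * r + 1), (dl (3 * r) k : R p) * (-(-1 - w)) ^ k := by
          rw [hA1, hA2, hAdef, mul_sum, mul_sum, mul_sum, mul_sum, ← sum_add_distrib,
            ← sum_sub_distrib, ← sum_sub_distrib]
          refine sum_congr rfl fun k _ => ?_
          have h5 := tau3_eq w hw k
          rw [neg_pow w k, neg_pow (-1 - w) k]
          linear_combination ((2 * (k : R p) - ((3 * r : ℕ) : R p)) * (-1) ^ k *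
            (dl (3 * r) k : R p)) * h5
        rw [e3, hAc]
        ring
      rw [e2] at x2
      have e4 : 6 * A * (A1 + A2) = (2 * w + 1) * (p - A ^ 2) := by
        linear_combination d1 - d2
      have e5 : (3 * A * 2) * S = -(ε * ((2 * w + 1) * (p - A ^ 2))) := by
        linear_combination (3 * A * ε) * x2 - ε * e4 - (6 * A * S) * hε2
      have h6u : IsUnit (3 * A * 2) := (h3u.mul hAu).mul h2u
      apply h6u.mul_left_cancel
      have hδ2 : δ * δ = 1 := by rw [hδ, ← mul_pow]; norm_num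
      have hεδ : ε = -δ := by linear_combination δ * hδε - ε * hδ2
      rw [e5, hA, hεδ]
      linear_combination (-δ * (2 * w + 1) ^ 3 * (2 * (y : R p) - p * Y) ^ 2) * hδ2
        - (δ * (2 * w + 1) * (2 * (y : R p) - p * Y) ^ 2) * hs2 - (δ * (2 * w + 1) * p) * hY
        + (3 * δ * (2 * w + 1) * Y ^ 2) * hpp

/-- **MP_d57286_nt, Q1 and Q2.** -/
theorem result (p : ℕ) (hp : p.Prime) (h12 : p % 12 = 7) (x y : ℤ)
    (hxy : (p : ℤ) = x ^ 2 + 3 * y ^ 2) (hy : y % 4 = 1) :
    Cong p (∑ k ∈ range p, (lucas k : ℚ) / 64 ^ k * ((2 * k).choose k : ℚ) ^ 2)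
      (2 * (y : ℚ) - p / (6 * y)) ∧
    Cong p (∑ k ∈ range p, (k : ℚ) * (lucas k : ℚ) / 64 ^ k * ((2 * k).choose k : ℚ) ^ 2) y :=
  both p hp h12 x y hxy hy

end Pool.Agent.Results.MP_d57286_nt.Full
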